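import Mathlib

/-!
A regular self-complementary graph on 13 vertices (the circulant graph with connection set
`{1, 2, 4, -1, -2, -4}`) for which `F(G) = V(G)` and `N(G) = E(G)`, but which is not strongly
regular.
-/

namespace Pool.Agent.Results.MP_a93e77_co.CirculantThirteen

open SimpleGraph

/-- A graph is self-complementary if it is isomorphic to its complement. An isomorphism-permutation
of `G` is an element of `G ≃g Gᶜ`. -/
def SelfComplementary {V : Type} (G : SimpleGraph V) : Prop := Nonempty (G ≃g Gᶜ)

/-- `F(G)`: the vertices fixed by at least one isomorphism-permutation. -/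
def fixedVertices {V : Type} (G : SimpleGraph V) : Set V := {v | ∃ P : G ≃g Gᶜ, P v = v}

/-- `N(G)`: the edges `uv` such that `P u = v` or `P v = u` for some isomorphism-permutation `P`. -/
def consecutiveEdges {V : Type} (G : SimpleGraph V) : Set (Sym2 V) :=
  {e | e ∈ G.edgeSet ∧ ∃ (P : G ≃g Gᶜ) (u v : V), e = s(u, v) ∧ (P u = v ∨ P v = u)}

/-- Every vertex has the same number of neighbours. -/
def Regular {V : Type} (G : SimpleGraph V) : Prop :=
  ∃ d : ℕ, ∀ v : V, (G.neighborSet v).ncard = d

/-- Every edge lies in the same number of triangles, and every two distinct nonadjacent vertices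
have the same number of common neighbours. -/
def StronglyRegular {V : Type} (G : SimpleGraph V) : Prop :=
  (∃ l : ℕ, ∀ u v : V, G.Adj u v → (G.commonNeighbors u v).ncard = l) ∧
  (∃ m : ℕ, ∀ u v : V, u ≠ v → ¬ G.Adj u v → (G.commonNeighbors u v).ncard = m)

/-- The circulant graph on `ZMod 13` with connection set `{1, 2, 4, 9, 11, 12}`. -/
def C : SimpleGraph (Fin 13) where
  Adj x y := (x - y) ∈ ({1, 2, 4, 9, 11, 12} : Finset (Fin 13))
  symm := ⟨by decide⟩
  loopless := ⟨by decide⟩

instance : DecidableRel C.Adj := fun x y =>
  inferInstanceAs (Decidable ((x - y) ∈ ({1, 2, 4, 9, 11, 12} : Finset (Fin 13))))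

/-- The affine map `x ↦ 8 x + b`, an isomorphism of `C` onto its complement. -/
def anti (b : Fin 13) : C ≃g Cᶜ where
  toFun x := 8 * x + b
  invFun y := 5 * (y - b)
  left_inv := by revert b; decide +kernel
  right_inv := by revert b; decide +kernel
  map_rel_iff' := by
    intro x y
    revert b x y
    decide +kernel

theorem regular_C : Regular C := by
  refine ⟨6, fun v => ?_⟩
  rw [Set.ncard_eq_toFinset_card']
  revert v
  decide +kernel

theorem fixed_C : fixedVertices C = Set.univ := by
  ext v
  simp only [fixedVertices, Set.mem_ofPred_eq, Set.mem_univ, iff_true]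
  refine ⟨anti (v - 8 * v), ?_⟩
  change 8 * v + (v - 8 * v) = v
  revert v
  decide

theorem consec_C : consecutiveEdges C = C.edgeSet := by
  ext e
  constructor
  · rintro ⟨h, -⟩
    exact h
  · intro h
    refine ⟨h, ?_⟩
    induction e with
    | h u v =>
      refine ⟨anti (v - 8 * u), u, v, rfl, Or.inl ?_⟩
      change 8 * u + (v - 8 * u) = v
      clear h
      revert u v
      decide

theorem not_srg_C : ¬ StronglyRegular C := by
  rintro ⟨⟨l, hl⟩, -⟩
  have h1 := hl 0 1 (by decide)
  have h2 := hl 0 2 (by decide)
  rw [Set.ncard_eq_toFinset_card'] at h1 h2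
  have e1 : (C.commonNeighbors 0 1).toFinset.card = 2 := by decide +kernel
  have e2 : (C.commonNeighbors 0 2).toFinset.card = 3 := by decide +kernel
  omega

/-- It is not true that a regular self-complementary finite graph is strongly regular if and only
if `F(G) = V(G)` and `N(G) = E(G)`: there is a regular self-complementary graph on 13 vertices with
`F(G) = V(G)` and `N(G) = E(G)` which is not strongly regular. -/
theorem result :
    (¬ ∀ (n : ℕ) (G : SimpleGraph (Fin n)), Regular G → SelfComplementary G →
      (StronglyRegular G ↔ (fixedVertices G = Set.univ ∧ consecutiveEdges G = G.edgeSet))) ∧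
    (∃ G : SimpleGraph (Fin 13), Regular G ∧ SelfComplementary G ∧
      fixedVertices G = Set.univ ∧ consecutiveEdges G = G.edgeSet ∧ ¬ StronglyRegular G) := by
  refine ⟨fun h => ?_, C, regular_C, ⟨anti 0⟩, fixed_C, consec_C, not_srg_C⟩
  exact not_srg_C ((h 13 C regular_C ⟨anti 0⟩).2 ⟨fixed_C, consec_C⟩)

end Pool.Agent.Results.MP_a93e77_co.CirculantThirteen
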